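import Mathlib
import Pool.Agent.Lib.helper11.Cover

namespace Pool.Agent.H.MP_52e7c8_nt

open Pool.Agent.Lib.helper11.Cover Filter

def Gen (χ : ℤ → Bool) : Prop :=
  ∀ (S V : Finset (ℕ+ × ℤ)) (r : ℤ) (M : ℕ+), ∃ n : ℤ, 1 ≤ n ∧ ((M : ℕ) : ℤ) ∣ n - r ∧
    ∀ t ∈ S, ∀ x : ℤ, ((t.1 : ℕ) : ℤ) * x + t.2 = n → χ x = decide (t ∈ V)

lemma exists_gen : ∃ χ, Gen χ := by
  classical
  let U : Finset (ℕ+ × ℤ) × Finset (ℕ+ × ℤ) × ℤ × ℕ+ → Set (ℤ → Bool) := fun q =>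
    {χ | ∃ n : ℤ, 1 ≤ n ∧ ((q.2.2.2 : ℕ) : ℤ) ∣ n - q.2.2.1 ∧
      ∀ t ∈ q.1, ∀ x : ℤ, ((t.1 : ℕ) : ℤ) * x + t.2 = n → χ x = decide (t ∈ q.2.1)}
  have ho : ∀ q, IsOpen (U q) := by
    rintro ⟨S, V, r, M⟩
    rw [isOpen_iff_mem_nhds]
    rintro χ ⟨n, h1, h2, h3⟩
    have h4 : ∀ᶠ ψ in nhds χ, ∀ t ∈ S, ψ ((n - t.2) / (t.1 : ℕ)) = χ ((n - t.2) / (t.1 : ℕ)) := by
      rw [eventually_all_finset]
      intro t _
      have := ((isOpen_discrete {χ ((n - t.2) / (t.1 : ℕ))}).preimage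
        (continuous_apply (A := fun _ : ℤ => Bool) ((n - t.2) / (t.1 : ℕ)))).mem_nhds (x := χ) rfl
      exact this
    filter_upwards [h4] with ψ hψ
    refine ⟨n, h1, h2, fun t ht x hx => ?_⟩
    have e : (n - t.2) / (t.1 : ℕ) = x := by
      rw [← hx, add_sub_cancel_right, Int.mul_ediv_cancel_left _ (by simp)]
    rw [← h3 t ht x hx, ← e, hψ t ht]
  have hd : ∀ q, Dense (U q) := by
    rintro ⟨S, V, r, M⟩
    rw [dense_iff_inter_open]
    rintro W hW ⟨χ, hχ⟩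
    obtain ⟨I, u, hu, hI⟩ := isOpen_pi_iff.1 hW χ hχ
    have e1 : ∀ᶠ n : ℤ in atTop, ∀ t ∈ S, ∀ x ∈ I, ((t.1 : ℕ) : ℤ) * x + t.2 ≠ n := by
      simp only [eventually_all_finset]
      intro t _ x _
      exact (eventually_ne_atTop _).mono fun n h => h.symm
    have e2 : ∀ᶠ n : ℤ in atTop, ∀ t ∈ S, ∀ s ∈ S, ∀ x : ℤ, ((t.1 : ℕ) : ℤ) * x + t.2 = n →
        ((s.1 : ℕ) : ℤ) * x + s.2 = n → t = s := by
      simp only [eventually_all_finset]
      intro t _ s _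
      by_cases hk : t.1 = s.1
      · refine Eventually.of_forall fun n x h1 h2 => Prod.ext hk ?_
        rw [hk] at h1; omega
      · have hk' : ((t.1 : ℕ) : ℤ) - (s.1 : ℕ) ≠ 0 := fun h => hk (PNat.eq (by omega))
        filter_upwards [eventually_ne_atTop
          (((t.1 : ℕ) : ℤ) * ((s.2 - t.2) / (((t.1 : ℕ) : ℤ) - (s.1 : ℕ))) + t.2)] with n hn x h1 h2
        refine absurd ?_ hn
        rw [← h1, show s.2 - t.2 = (((t.1 : ℕ) : ℤ) - (s.1 : ℕ)) * x by linarith,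
          Int.mul_ediv_cancel_left _ hk']
    have hM : (0 : ℤ) < (M : ℕ) := by simp
    have e3 : Tendsto (fun j : ℤ => j * (M : ℕ) + r) atTop atTop :=
      tendsto_atTop_add_const_right _ _ (tendsto_id.atTop_mul_const' hM)
    obtain ⟨j, h1, h2, h3⟩ := (e3.eventually (e1.and (e2.and (eventually_ge_atTop 1)))).exists
    refine ⟨fun x => if h : ∃ t ∈ S, ((t.1 : ℕ) : ℤ) * x + t.2 = j * (M : ℕ) + r then
      decide (h.choose ∈ V) else χ x, hI fun x hx => ?_, _, h3, by simp, fun t ht x hx => ?_⟩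
    · simp only
      rw [dif_neg (by rintro ⟨t, ht, h⟩; exact h1 t ht x hx h)]
      exact (hu x hx).2
    · have h : ∃ t ∈ S, ((t.1 : ℕ) : ℤ) * x + t.2 = j * (M : ℕ) + r := ⟨t, ht, hx⟩
      simp only
      rw [dif_pos h, h2 _ h.choose_spec.1 t ht x h.choose_spec.2 hx]
  obtain ⟨χ, hχ⟩ := (dense_iInter_of_isOpen ho hd).nonempty
  exact ⟨χ, fun S V r M => Set.mem_iInter.1 hχ (S, V, r, M)⟩

def G (χ : ℤ → Bool) (i : (ℕ+ × ℤ) × Bool) : Set ℤ :=
  {n | ∃ x, χ x = i.2 ∧ ((i.1.1 : ℕ) : ℤ) * x + i.1.2 = n}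

noncomputable def w (i : (ℕ+ × ℤ) × Bool) : ℝ := 1 / (2 * (i.1.1 : ℕ))

lemma two (χ : ℤ → Bool) (t : ℕ+ × ℤ) : {n | ((t.1 : ℕ) : ℤ) ∣ n - t.2} ⊆
    ⋃ i ∈ ({(t, true), (t, false)} : Finset _), G χ i := by
  rintro n ⟨x, hx⟩
  refine Set.mem_iUnion₂.2 ⟨(t, χ x), by cases χ x <;> simp, x, rfl, by simp only; omega⟩

lemma two_w (t : ℕ+ × ℤ) : ∑ i ∈ ({(t, true), (t, false)} : Finset _), w i = 1 / (t.1 : ℕ) := by
  rw [Finset.sum_pair (by simp), w, w]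
  have : (0 : ℝ) < (t.1 : ℕ) := by simp
  field_simp; ring

lemma sys (χ : ℤ → Bool) : Sys (G χ) w :=
  ⟨fun i => by unfold w; positivity, _, fun n _ => two χ (1, 0) (by simp), by rw [two_w]; simp⟩

lemma aff (χ : ℤ → Bool) (k : ℕ) (hk : 0 < k) (h : ℤ) (Z : Set ℤ) :
    mu (G χ) w ((fun x => k * x + h) '' Z) = mu (G χ) w Z / k := by
  have hk' : (0 : ℝ) < k := by exact_mod_cast hk
  refine affine (sys χ) k hk h ?_ ?_ Z
  · rintro ⟨⟨a, c⟩, b⟩
    refine (mu_le_gen (sys χ) ((⟨k, hk⟩ * a, k * c + h), b) ?_).trans (le_of_eq ?_)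
    · rintro _ ⟨_, ⟨x, h1, rfl⟩, rfl⟩
      exact ⟨x, h1, by simp; ring⟩
    · simp [w]; field_simp
  · rintro ⟨⟨a, c⟩, b⟩
    have ha : (0 : ℝ) < (a : ℕ) := by simp
    by_cases hd : k ∣ a
    · obtain ⟨d, hd⟩ := hd
      have hd0 : 0 < d := Nat.pos_of_mul_pos_left (hd ▸ a.pos)
      refine (mu_le_gen (sys χ) ((⟨d, hd0⟩, (c - h) / k), b) ?_).trans (le_of_eq ?_)
      · rintro y ⟨x, h1, h2⟩
        refine ⟨x, h1, ?_⟩
        simp only [hd, PNat.mk_coe] at h2 ⊢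
        rw [show c - h = k * (y - d * x) by push_cast at h2; linarith,
          Int.mul_ediv_cancel_left _ (by omega)]
        ring
      · simp only [w, hd, PNat.mk_coe]; push_cast; field_simp
    · obtain ⟨x0, h0⟩ := ap_pull k a hk h c
      obtain ⟨p, q, -, hp, hq⟩ := Nat.exists_coprime k a
      have hg : 0 < Nat.gcd k a := Nat.gcd_pos_of_pos_left _ hk
      rw [show a / Nat.gcd k a = q from Nat.div_eq_of_eq_mul_left hg hq] at h0
      generalize Nat.gcd k a = g at *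
      have hq0 : 0 < q := Nat.pos_of_mul_pos_right (hq ▸ a.pos)
      have hp2 : 2 ≤ p := by
        by_contra h2
        have : p = 0 ∨ p = 1 := by omega
        rcases this with rfl | rfl
        · omega
        · exact hd ⟨q, by rw [hq, hp]; ring⟩
      refine (mu_le (sys χ) _ (le_trans ?_ (two χ (⟨q, hq0⟩, x0)))).trans ?_
      · rintro y ⟨x, -, h2⟩
        exact h0 y ⟨x, by simp only at h2; linarith⟩
      · rw [two_w]
        simp only [w, hq, hp, PNat.mk_coe]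
        have : (2 : ℝ) ≤ p := by exact_mod_cast hp2
        push_cast; field_simp; linarith

lemma indep {χ : ℤ → Bool} (hχ : Gen χ) (b : Bool) (F : Finset ((ℕ+ × ℤ) × Bool))
    (hF : {n | 1 ≤ n ∧ χ n = b} ⊆ ⋃ i ∈ F, G χ i) (hw : ∑ i ∈ F, w i < 1) :
    ((1, 0), b) ∈ F := by
  classical
  by_contra hb
  set T := (F.image Prod.fst).filter fun t => (t, true) ∈ F ∧ (t, false) ∈ F with hT
  have h1 : ∑ t ∈ T, (1 : ℝ) / (t.1 : ℕ) ≤ ∑ i ∈ F, w i := by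
    refine le_trans (le_of_eq ?_) (Finset.sum_le_sum_of_subset_of_nonneg
      (s := T ×ˢ {true, false}) ?_ fun i _ _ => (sys χ).nn i)
    · rw [Finset.sum_product]
      refine Finset.sum_congr rfl fun t _ => ?_
      rw [← two_w, Finset.sum_pair (by simp), Finset.sum_pair (by simp)]
    · rintro ⟨t, c⟩ hi
      have := (Finset.mem_filter.1 (Finset.mem_product.1 hi).1).2
      cases c
      exacts [this.2, this.1]
  obtain ⟨r, hr⟩ := ap_miss T (fun t => t.1) (fun t => t.2) (fun t => t.1.pos) (h1.trans_lt hw)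
  obtain ⟨n, hn1, hn2, hn3⟩ := hχ (insert (1, 0) (F.image Prod.fst))
    ((insert (1, 0) (F.image Prod.fst)).filter fun t =>
      if t = (1, 0) then b = true else (t, true) ∉ F) r (∏ t ∈ T, t.1)
  have h2 : χ n = b := by
    rw [hn3 (1, 0) (by simp) n (by simp)]; simp
  obtain ⟨⟨t, c⟩, hi, x, rfl, hx⟩ := Set.mem_iUnion₂.1 (hF ⟨hn1, h2⟩)
  have ht : t ∈ F.image Prod.fst := Finset.mem_image_of_mem _ hi
  have h3 := hn3 t (Finset.mem_insert_of_mem ht) x hx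
  by_cases h4 : t = (1, 0)
  · subst h4
    obtain rfl : x = n := by simpa using hx
    exact hb (h2 ▸ hi)
  · simp only [Finset.mem_filter, Finset.mem_insert, h4, ht, or_true, true_and, if_false] at h3
    by_cases h5 : (t, true) ∈ F
    · rw [h3] at hi
      simp only [h5, not_true, decide_false] at hi
      have h6 : t ∈ T := Finset.mem_filter.2 ⟨ht, h5, hi⟩
      have h7 : ((t.1 : ℕ) : ℤ) ∣ ((∏ t ∈ T, t.1 : ℕ+) : ℕ) := by
        exact_mod_cast PNat.dvd_iff.1 (Finset.dvd_prod_of_mem (fun t : ℕ+ × ℤ => t.1) h6)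
      refine hr t h6 ?_
      have h8 := (Dvd.intro x rfl : ((t.1 : ℕ) : ℤ) ∣ (t.1 : ℕ) * x).sub (h7.trans hn2)
      rwa [show ((t.1 : ℕ) : ℤ) * x - (n - r) = r - t.2 by simp only at hx; linarith] at h8
    · rw [h3] at hi
      simp only [h5, not_false_iff, decide_true] at hi

end Pool.Agent.H.MP_52e7c8_nt
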